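import Pool.Agent.Lib.H97P.Parity
import Pool.Agent.Lib.H97P.Sharp

/-!
# H88M: parity of the agreements with an extremal family; maximality
-/

set_option autoImplicit false

namespace Pool.Agent.Lib.H88M

open Finset Pool.Agent.Lib.H97P

/-- The pairs `i < j` at which `g` has the symbol `c` and some member of `S` has it too. -/
def agree {r : ℕ} (S : Finset (Fin r → Fin r → Fin r)) (g : Fin r → Fin r → Fin r) (c : Fin r) :
    Finset (Fin r × Fin r) :=
  univ.filter fun p => p.1 < p.2 ∧ g p.1 p.2 = c ∧ ∃ f ∈ S, f p.1 p.2 = c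

theorem mem_agree {r : ℕ} {S : Finset (Fin r → Fin r → Fin r)} {g : Fin r → Fin r → Fin r}
    {c : Fin r} {p : Fin r × Fin r} :
    p ∈ agree S g c ↔ p.1 < p.2 ∧ g p.1 p.2 = c ∧ ∃ f ∈ S, f p.1 p.2 = c := by
  unfold agree
  simp

/-- An involution without fixed points on a finite set: the set has an even number of elements. -/
theorem even_card_of_invol {α : Type*} [DecidableEq α] (A : Finset α) (τ : α → α)
    (h1 : ∀ a ∈ A, τ a ∈ A) (h2 : ∀ a ∈ A, τ (τ a) = a) (h3 : ∀ a ∈ A, τ a ≠ a) :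
    Even A.card := by
  have h0 : ∑ _i ∈ A, (1 : ZMod 2) = 0 := by
    refine Finset.sum_involution (fun i _ => τ i) (fun i _ => ?_) (fun i hi _ => ?_)
      (fun i hi => h1 i hi) (fun i hi => h2 i hi)
    · decide
    · exact h3 i hi
  rw [Finset.sum_const, nsmul_eq_mul, mul_one, ZMod.natCast_eq_zero_iff] at h0
  exact even_iff_two_dvd.2 h0

section crit

variable {r : ℕ} {S : Finset (Fin r → Fin r → Fin r)}

theorem odd_agree (hr : r % 4 = 3) (hS : ∀ f ∈ S, IsSLS f)
    (ho : ∀ f ∈ S, ∀ g ∈ S, f ≠ g → Orth f g) (hcard : 2 * S.card = r - 1) (c : Fin r)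
    (X : Set (Fin r)) (hX : ∀ f ∈ S, ∀ i j, i ≠ j → f i j = c → (i ∈ X ↔ j ∉ X))
    {g : Fin r → Fin r → Fin r} (hg : IsSLS g) : Odd (agree S g c).card := by
  classical
  -- the partner of `i` in the class `c` of a square
  have part : ∀ f : Fin r → Fin r → Fin r, IsSLS f → ∃ σ : Fin r → Fin r,
      (∀ i, f i (σ i) = c) ∧ (∀ i j, f i j = c → j = σ i) ∧ (∀ i, σ (σ i) = i) ∧
      (∀ i, i ≠ c → σ i ≠ i ∧ σ i ≠ c) := by
    intro f hf
    choose σ hσ using fun i => (hf.row i).2 c
    have hu : ∀ i j, f i j = c → j = σ i := fun i j h => (hf.row i).1 (by rw [h, hσ])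
    have hinv : ∀ i, σ (σ i) = i := by
      intro i
      exact (hu (σ i) i (by rw [hf.symm, hσ])).symm
    have hcc : σ c = c := (hu c c (hf.diag c)).symm
    refine ⟨σ, hσ, hu, hinv, fun i hi => ⟨fun h => ?_, fun h => ?_⟩⟩
    · have := hσ i
      rw [h, hf.diag] at this
      exact hi this
    · have := hinv i
      rw [h, hcc] at this
      exact hi this.symm
  haveI : Nonempty (Fin r → Fin r) := ⟨id⟩
  choose! σ hσ hu hinv hne using part
  set A : Finset (Fin r) := univ.filter fun i => i ≠ c ∧ i ∈ X with hA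
  set B : Finset (Fin r) := univ.filter fun i => i ≠ c ∧ i ∉ X with hB
  have mA : ∀ i, i ∈ A ↔ i ≠ c ∧ i ∈ X := by intro i; rw [hA]; simp
  have mB : ∀ i, i ∈ B ↔ i ≠ c ∧ i ∉ X := by intro i; rw [hB]; simp
  have hn : 0 < S.card := by omega
  obtain ⟨f0, hf0⟩ := Finset.card_pos.1 hn
  have AB : ∀ f ∈ S, ∀ i ∈ A, σ f i ∈ B := by
    intro f hf i hi
    rw [mA] at hi
    rw [mB]
    have h1 := hne f (hS f hf) i hi.1
    exact ⟨h1.2, (hX f hf i _ h1.1.symm (hσ f (hS f hf) i)).1 hi.2⟩
  have BA : ∀ f ∈ S, ∀ i ∈ B, σ f i ∈ A := by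
    intro f hf i hi
    rw [mB] at hi
    rw [mA]
    have h1 := hne f (hS f hf) i hi.1
    refine ⟨h1.2, ?_⟩
    by_contra hc
    exact hi.2 ((hX f hf i _ h1.1.symm (hσ f (hS f hf) i)).2 hc)
  have cAB : A.card = B.card := by
    have hin := hinv f0 (hS f0 hf0)
    refine Finset.card_bij' (fun i _ => σ f0 i) (fun i _ => σ f0 i) (fun i hi => AB f0 hf0 i hi)
      (fun i hi => BA f0 hf0 i hi) (fun i _ => hin i) (fun i _ => hin i)
  have tot : A.card + B.card + 1 = r := by
    have d1 : Disjoint A B := by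
      rw [Finset.disjoint_left]
      intro i h1 h2
      rw [mA] at h1
      rw [mB] at h2
      exact h2.2 h1.2
    have d2 : Disjoint (A ∪ B) {c} := by
      rw [Finset.disjoint_left]
      intro i h1 h2
      rw [Finset.mem_singleton] at h2
      rw [Finset.mem_union, mA, mB] at h1
      rcases h1 with h | h
      · exact h.1 h2
      · exact h.1 h2
    have e : A ∪ B ∪ {c} = (Finset.univ : Finset (Fin r)) := by
      ext i
      simp only [Finset.mem_univ, Finset.mem_union, mA, mB, Finset.mem_singleton, iff_true]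
      tauto
    have h3 := Finset.card_univ (α := Fin r)
    rw [← e, Finset.card_union_of_disjoint d2, Finset.card_union_of_disjoint d1,
      Finset.card_singleton, Fintype.card_fin] at h3
    exact h3
  have hAn : A.card = S.card := by omega
  have hoddA : Odd A.card := by
    rw [Nat.odd_iff]
    omega
  -- every pair between `A` and `B` has the symbol `c` in some member of `S`
  have full : ∀ i ∈ A, ∀ j ∈ B, ∃ f ∈ S, f i j = c := by
    intro i hi j hj
    have himg : S.image (fun f => σ f i) = B := by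
      refine Finset.eq_of_subset_of_card_le ?_ ?_
      · intro k hk
        obtain ⟨f, hf, rfl⟩ := Finset.mem_image.1 hk
        exact AB f hf i hi
      · rw [Finset.card_image_of_injOn, ← cAB, hAn]
        intro f hf g' hg' h
        by_contra hfg
        simp only at h
        have e1 : f i (σ f i) = f c c := by rw [hσ f (hS f hf), (hS f hf).diag]
        have e2 : g' i (σ f i) = g' c c := by
          rw [h, hσ g' (hS g' hg'), (hS g' hg').diag]
        have := orth_symm (hS f hf) (hS g' hg') (ho f hf g' hg' hfg) e1 e2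
        exact (hne f (hS f hf) i ((mA i).1 hi).1).1 this.symm
    rw [← himg] at hj
    obtain ⟨f, hf, hfj⟩ := Finset.mem_image.1 hj
    exact ⟨f, hf, by rw [← hfj]; exact hσ f (hS f hf) i⟩
  -- the partner map of `g`
  have gσ := hσ g hg
  have gu := hu g hg
  have ginv := hinv g hg
  have gne := hne g hg
  set τ := σ g with hτ
  set A1 := A.filter fun i => τ i ∈ B with hA1
  set A2 := A.filter fun i => ¬ (τ i ∈ B) with hA2
  have hsum : A1.card + A2.card = A.card := by
    rw [hA1, hA2]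
    exact Finset.card_filter_add_card_filter_not _
  have hA2e : Even A2.card := by
    refine even_card_of_invol A2 τ ?_ (fun i _ => ginv i) ?_
    · intro i hi
      rw [hA2, Finset.mem_filter] at hi ⊢
      have h1 := gne i ((mA i).1 hi.1).1
      have h2 : τ i ∈ A := by
        rw [mA]
        refine ⟨h1.2, ?_⟩
        by_contra hc
        exact hi.2 ((mB _).2 ⟨h1.2, hc⟩)
      refine ⟨h2, ?_⟩
      rw [ginv]
      intro h3
      exact ((mB i).1 h3).2 ((mA i).1 hi.1).2
    · intro i hi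
      rw [hA2, Finset.mem_filter] at hi
      exact (gne i ((mA i).1 hi.1).1).1
  have hA1o : Odd A1.card := by
    rw [Nat.odd_iff] at hoddA ⊢
    obtain ⟨k, hk⟩ := hA2e
    omega
  have hcd : (agree S g c).card = A1.card := by
    refine Finset.card_bij (fun p _ => if p.1 ∈ X then p.1 else p.2) ?_ ?_ ?_
    · intro p hp
      rw [mem_agree] at hp
      obtain ⟨hlt, hgc, f, hf, hfc⟩ := hp
      have hne' : p.1 ≠ p.2 := ne_of_lt hlt
      have hp1 : p.1 ≠ c := by
        intro h
        have h1 : p.2 = c := (hS f hf).row p.1 |>.1 (by rw [hfc, ← h, (hS f hf).diag])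
        exact hne' (by rw [h, h1])
      have hp2 : p.2 ≠ c := by
        intro h
        rw [(hS f hf).symm] at hfc
        have h1 : p.1 = c := (hS f hf).row p.2 |>.1 (by rw [hfc, ← h, (hS f hf).diag])
        exact hne' (by rw [h, h1])
      have hx := hX f hf p.1 p.2 hne' hfc
      have hg1 : p.2 = τ p.1 := gu _ _ hgc
      have hg2 : p.1 = τ p.2 := by rw [hg1, ginv]
      by_cases h1 : p.1 ∈ X
      · rw [if_pos h1, hA1, Finset.mem_filter, ← hg1, mA, mB]
        exact ⟨⟨hp1, h1⟩, hp2, hx.1 h1⟩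
      · rw [if_neg h1, hA1, Finset.mem_filter, ← hg2, mA, mB]
        refine ⟨⟨hp2, ?_⟩, hp1, h1⟩
        by_contra hc
        exact h1 (hx.2 hc)
    · intro p hp q hq h
      rw [mem_agree] at hp hq
      obtain ⟨hlt, hgc, f, hf, hfc⟩ := hp
      obtain ⟨hlt', hgc', f', hf', hfc'⟩ := hq
      have hx := hX f hf p.1 p.2 (ne_of_lt hlt) hfc
      have hx' := hX f' hf' q.1 q.2 (ne_of_lt hlt') hfc'
      have hp1 : p.2 = τ p.1 := gu _ _ hgc
      have hq1 : q.2 = τ q.1 := gu _ _ hgc'
      have hp2 : p.1 = τ p.2 := by rw [hp1, ginv]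
      have hq2 : q.1 = τ q.2 := by rw [hq1, ginv]
      try simp only at h
      by_cases h1 : p.1 ∈ X <;> by_cases h2 : q.1 ∈ X
      · rw [if_pos h1, if_pos h2] at h
        exact Prod.ext h (by rw [hp1, hq1, h])
      · rw [if_pos h1, if_neg h2] at h
        exfalso
        have e : p.2 = q.1 := by rw [hp1, h, ← hq2]
        rw [h, e] at hlt
        exact lt_asymm hlt hlt'
      · rw [if_neg h1, if_pos h2] at h
        exfalso
        have e : p.1 = q.2 := by rw [hp2, h, ← hq1]
        rw [h, e] at hlt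
        exact lt_asymm hlt hlt'
      · rw [if_neg h1, if_neg h2] at h
        exact Prod.ext (by rw [hp2, hq2, h]) h
    · intro i hi
      rw [hA1, Finset.mem_filter] at hi
      obtain ⟨hiA, hiB⟩ := hi
      have hi1 := (mA i).1 hiA
      have hi2 := (mB _).1 hiB
      obtain ⟨f, hf, hfc⟩ := full i hiA (τ i) hiB
      rcases lt_or_gt_of_ne (gne i hi1.1).1 with hlt | hlt
      · refine ⟨(τ i, i), ?_, ?_⟩
        · rw [mem_agree]
          refine ⟨hlt, ?_, f, hf, ?_⟩
          · rw [hg.symm]; exact gσ i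
          · rw [(hS f hf).symm]; exact hfc
        · simp only
          rw [if_neg hi2.2]
      · refine ⟨(i, τ i), ?_, ?_⟩
        · rw [mem_agree]
          exact ⟨hlt, gσ i, f, hf, hfc⟩
        · simp only
          rw [if_pos hi1.2]
  rw [hcd]
  exact hA1o

end crit

/-- The extremal family. -/
noncomputable def fam {F : Type*} [Field F] [Fintype F] {r : ℕ} (φ : Fin r ≃ F) :
    Finset (Fin r → Fin r → Fin r) := by
  classical
  exact (univ.filter fun l : F => ¬ IsSquare (l ^ 2 - 1 / 4)).image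
    fun l i j => φ.symm (sq l (φ i) (φ j))

section fam

variable {F : Type*} [Field F] [Fintype F] {r : ℕ}

theorem mem_fam (φ : Fin r ≃ F) {f : Fin r → Fin r → Fin r} : f ∈ fam φ ↔
    ∃ l : F, ¬ IsSquare (l ^ 2 - 1 / 4) ∧ ∀ i j, φ (f i j) = sq l (φ i) (φ j) := by
  classical
  unfold fam
  rw [Finset.mem_image]
  constructor
  · rintro ⟨l, hl, rfl⟩
    rw [Finset.mem_filter] at hl
    exact ⟨l, hl.2, fun i j => by rw [Equiv.apply_symm_apply]⟩
  · rintro ⟨l, hl, h⟩
    refine ⟨l, by rw [Finset.mem_filter]; exact ⟨Finset.mem_univ _, hl⟩, ?_⟩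
    funext i j
    rw [← h, Equiv.symm_apply_apply]

theorem fam_sls (hq : Fintype.card F % 4 = 3) (φ : Fin r ≃ F) : ∀ f ∈ fam φ, IsSLS f := by
  intro f hf
  obtain ⟨l, hl, h⟩ := (mem_fam φ).1 hf
  have hrow : ∀ i, Function.Bijective (f i) := by
    intro i
    rw [Fintype.bijective_iff_injective_and_card]
    refine ⟨?_, rfl⟩
    intro j k hjk
    have h1 : sq l (φ i) (φ j) = sq l (φ i) (φ k) := by rw [← h, ← h, hjk]
    exact φ.injective (sq_inj hq hl _ h1)
  have hsymm : ∀ i j, f i j = f j i := by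
    intro i j
    apply φ.injective
    rw [h, h, sq_symm hq]
  refine ⟨hrow, ?_, hsymm, ?_⟩
  · intro j
    have : (fun i => f i j) = f j := by
      funext i
      rw [hsymm]
    rw [this]
    exact hrow j
  · intro i
    apply φ.injective
    rw [h, sq_diag hq]

theorem fam_orth (hq : Fintype.card F % 4 = 3) (φ : Fin r ≃ F) :
    ∀ f ∈ fam φ, ∀ g ∈ fam φ, f ≠ g → Orth f g := by
  intro f hf g hg hfg
  obtain ⟨l, hl, h⟩ := (mem_fam φ).1 hf
  obtain ⟨m, hm, h'⟩ := (mem_fam φ).1 hg
  have hlm : l ≠ m := by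
    intro e
    apply hfg
    funext i j
    apply φ.injective
    rw [h, h', e]
  intro i j k n hij hkn h1 h2
  have h3 : sq l (φ i) (φ j) = sq l (φ k) (φ n) := by rw [← h, ← h, h1]
  have h4 : sq m (φ i) (φ j) = sq m (φ k) (φ n) := by rw [← h', ← h', h2]
  rcases sq_orth hq hlm h3 h4 with h | h
  · exact ⟨φ.injective h.1, φ.injective h.2⟩
  · have e1 := φ.injective h.1
    have e2 := φ.injective h.2
    subst e1 e2
    have := le_antisymm hij hkn
    exact ⟨this, this.symm⟩

theorem fam_card (hF : Fintype.card F = r) (hr : r % 4 = 3) (φ : Fin r ≃ F) :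
    2 * (fam φ).card = r - 1 := by
  classical
  have hq : Fintype.card F % 4 = 3 := by rw [hF]; exact hr
  have hodd : Odd r := by rw [Nat.odd_iff]; omega
  have up : 2 * (fam φ).card ≤ r - 1 := by
    refine part1 hodd φ (fun i j => (φ i + φ j) / 2) (fun i j => ab (φ i - φ j)) (fam φ)
      (fam_sls hq φ) (fam_orth hq φ) ?_
    intro f hf
    obtain ⟨l, hl, h⟩ := (mem_fam φ).1 hf
    exact ⟨l, fun i j => by rw [h]; rfl⟩
  have hQinj : Function.Injective
      (fun (l : F) (i j : Fin r) => φ.symm (sq l (φ i) (φ j))) := by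
    intro l m h
    have h1 := congrFun (congrFun h (φ.symm 1)) (φ.symm 0)
    simp only [Equiv.apply_symm_apply, EmbeddingLike.apply_eq_iff_eq] at h1
    unfold Pool.Agent.Lib.H97P.sq at h1
    rw [sub_zero, ab_one, mul_one, mul_one] at h1
    exact add_left_cancel h1
  have low : r - 1 ≤ 2 * (fam φ).card := by
    have h1 : ((nonsq F).image par).card ≤
        (univ.filter fun l : F => ¬ IsSquare (l ^ 2 - 1 / 4)).card := by
      refine Finset.card_le_card ?_
      intro l hl
      obtain ⟨c, hc, rfl⟩ := Finset.mem_image.1 hl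
      rw [Finset.mem_filter]
      exact ⟨Finset.mem_univ _, par_spec hq (mem_nonsq.1 hc)⟩
    rw [Finset.card_image_of_injOn] at h1
    · have h2 : (fam φ).card = (univ.filter fun l : F => ¬ IsSquare (l ^ 2 - 1 / 4)).card := by
        unfold fam
        rw [Finset.card_image_of_injective _ hQinj]
      rw [h2]
      have h3 := card_nonsq hq
      rw [hF] at h3
      omega
    · intro c hc d hd h
      exact par_inj hq (mem_nonsq.1 hc) (mem_nonsq.1 hd) h
  omega

theorem fam_bip (hq : Fintype.card F % 4 = 3) (φ : Fin r ≃ F) (c : Fin r) :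
    ∀ f ∈ fam φ, ∀ i j, i ≠ j → f i j = c →
      (i ∈ {i | IsSquare (φ i - φ c)} ↔ j ∉ {i | IsSquare (φ i - φ c)}) := by
  intro f hf i j hij hfc
  obtain ⟨l, hl, h⟩ := (mem_fam φ).1 hf
  have h20 := two_ne hq
  have h1 : sq l (φ i) (φ j) = φ c := by rw [← h, hfc]
  unfold Pool.Agent.Lib.H97P.sq at h1
  have hd : φ i - φ j ≠ 0 := sub_ne_zero.2 fun e => hij (φ.injective e)
  have h2 := ab_sq (φ i - φ j)
  have h40 : (4 : F) ≠ 0 := by
    have : (4 : F) = 2 * 2 := by norm_num
    rw [this]; exact mul_ne_zero h20 h20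
  have key : (φ i - φ c) * (φ j - φ c) = (l ^ 2 - 1 / 4) * (φ i - φ j) ^ 2 := by
    have e1 : φ c = (φ i + φ j) / 2 + l * ab (φ i - φ j) := h1.symm
    have e2 : l ^ 2 * ab (φ i - φ j) ^ 2 = l ^ 2 * (φ i - φ j) ^ 2 := by rw [h2]
    have e3 : (φ i - φ c) * (φ j - φ c) =
        l ^ 2 * ab (φ i - φ j) ^ 2 - 1 / 4 * (φ i - φ j) ^ 2 := by
      rw [e1]
      field_simp
      ring
    rw [e3, e2]
    ring
  have nsq : ¬ IsSquare ((φ i - φ c) * (φ j - φ c)) := by
    rintro ⟨a, ha⟩
    apply hl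
    refine ⟨a / (φ i - φ j), ?_⟩
    rw [ha] at key
    rw [div_mul_div_comm, eq_div_iff (mul_ne_zero hd hd)]
    linear_combination (-1 : F) * key
  simp only [Set.mem_setOf_eq]
  constructor
  · rintro ⟨a, ha⟩ ⟨b, hb⟩
    apply nsq
    exact ⟨a * b, by rw [ha, hb]; ring⟩
  · intro hj
    by_contra hi
    obtain ⟨a, ha⟩ := (isSquare_or hq _).resolve_left hi
    obtain ⟨b, hb⟩ := (isSquare_or hq _).resolve_left hj
    apply nsq
    exact ⟨a * b, by linear_combination (-(φ j - φ c)) * ha + (a * a) * hb⟩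

end fam

/-- All agreements with a family. -/
def agreeAll {r : ℕ} (S : Finset (Fin r → Fin r → Fin r)) (g : Fin r → Fin r → Fin r) :
    Finset (Fin r × Fin r) :=
  univ.filter fun p => p.1 < p.2 ∧ ∃ f ∈ S, f p.1 p.2 = g p.1 p.2

theorem card_agreeAll {r : ℕ} (S : Finset (Fin r → Fin r → Fin r)) (g : Fin r → Fin r → Fin r) :
    (agreeAll S g).card = ∑ c, (agree S g c).card := by
  classical
  have h1 := Finset.card_eq_sum_card_fiberwise (s := agreeAll S g) (t := univ)
    (f := fun p : Fin r × Fin r => g p.1 p.2) (fun _ _ => Finset.mem_coe.2 (Finset.mem_univ _))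
  rw [h1]
  refine Finset.sum_congr rfl fun c _ => ?_
  congr 1
  ext p
  rw [Finset.mem_filter, mem_agree]
  unfold agreeAll
  rw [Finset.mem_filter]
  constructor
  · rintro ⟨⟨_, h2, f, hf, h3⟩, h4⟩
    exact ⟨h2, h4, f, hf, by rw [h3, h4]⟩
  · rintro ⟨h2, h4, f, hf, h3⟩
    exact ⟨⟨Finset.mem_univ _, h2, f, hf, by rw [h3, h4]⟩, h4⟩

/-- If some symbol has an agreement with `S` for every square, `S` is maximal. -/
theorem maximal_of {r : ℕ} (S : Finset (Fin r → Fin r → Fin r)) (c : Fin r)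
    (h : ∀ g, IsSLS g → Odd (agree S g c).card)
    (T : Finset (Fin r → Fin r → Fin r)) (hT : ∀ f ∈ T, IsSLS f)
    (hTo : ∀ f ∈ T, ∀ g ∈ T, f ≠ g → Orth f g) (hST : S ⊆ T) : T = S := by
  classical
  refine Finset.Subset.antisymm ?_ hST
  intro g hg
  by_contra hgS
  have h1 := h g (hT g hg)
  have h2 : 0 < (agree S g c).card := h1.pos
  obtain ⟨p, hp⟩ := Finset.card_pos.1 h2
  obtain ⟨hlt, hgc, f, hf, hfc⟩ := mem_agree.1 hp
  have hfg : f ≠ g := fun e => hgS (e ▸ hf)
  have hfT := hST hf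
  have e1 : f p.1 p.2 = f c c := by rw [hfc, (hT f hfT).diag]
  have e2 : g p.1 p.2 = g c c := by rw [hgc, (hT g hg).diag]
  exact (ne_of_lt hlt) (orth_symm (hT f hfT) (hT g hg) (hTo f hfT g hg hfg) e1 e2)

end Pool.Agent.Lib.H88M
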